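import Pool.Agent.Helper13_Sid.Basic

/-!
Rows C3, C4a, C4b, sum_mm, C5, C6 of the even case (MP_f1f170_co).
-/

namespace Pool.Agent.Sid13

open Finset

variable {G : Type*} [AddCommGroup G] [Fintype G] [DecidableEq G]

section classes
variable {Q : Type*} [AddCommGroup Q] [Fintype Q] [DecidableEq Q]

theorem sum_mm (A : Finset G) (π : G →+ Q) : ∑ κ, mm A π κ = A.card := by
  have h := Finset.card_eq_sum_card_fiberwise (f := fun a => π a) (s := A)
    (t := (univ : Finset Q)) (fun a _ => by simp)
  exact h.symm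

/-- C3: for m even, t odd at g implies g ∈ A or rr g odd, so g = a + h with
h ∈ {0} ∪ Dm A; for each h at most M elements a in the class κ - π h. -/
theorem class_odd {A : Finset G} (hA : IsSidon A) (heven : Even A.card) (π : G →+ Q) (κ : Q)
    {M : ℕ} (hM : ∀ l, mm A π l ≤ M) :
    (univ.filter fun g => π g = κ ∧ Odd (tt A g)).card ≤ M * ((Dm A).card + 1) := by
  classical
  have hsub : (univ.filter fun g => π g = κ ∧ Odd (tt A g)) ⊆
      (insert 0 (Dm A)).biUnion fun x =>
        (A.filter fun a => π a = κ - π x).image fun a => a + x := by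
    intro g hg
    simp only [mem_filter, mem_univ, true_and] at hg
    obtain ⟨hgκ, hodd⟩ := hg
    simp only [mem_biUnion, mem_insert, mem_image, mem_filter]
    by_cases hgA : g ∈ A
    · exact ⟨0, Or.inl rfl, g, ⟨hgA, by rw [map_zero, sub_zero]; exact hgκ⟩, by rw [add_zero]⟩
    · have hp := parity hA hgA
      have hrr : 0 < rr A g := by
        rcases Nat.eq_zero_or_pos (rr A g) with h0 | h0
        · exfalso
          rw [h0, add_zero] at hp
          obtain ⟨u, hu⟩ := hp
          obtain ⟨v, hv⟩ := heven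
          obtain ⟨w, hw⟩ := hodd
          omega
        · exact h0
      obtain ⟨a, ha⟩ := Finset.card_pos.1 hrr
      rw [mem_filter] at ha
      refine ⟨g - a, Or.inr ha.2, a, ⟨ha.1, ?_⟩, by abel⟩
      rw [map_sub, hgκ]
      abel
  refine (card_le_card hsub).trans (card_biUnion_le.trans ?_)
  have h1 : ∀ x ∈ insert 0 (Dm A),
      ((A.filter fun a => π a = κ - π x).image fun a => a + x).card ≤ M := by
    intro x _
    exact card_image_le.trans (hM _)
  refine (Finset.sum_le_card_nsmul _ _ M h1).trans ?_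
  rw [smul_eq_mul, mul_comm]
  exact Nat.mul_le_mul_left M (card_insert_le _ _)

/-- each fibre of a surjective homomorphism is a translate of the kernel -/
theorem card_fib (π : G →+ Q) (hs : Function.Surjective π) (κ : Q) :
    (univ.filter fun g => π g = κ).card = (univ.filter fun g => π g = 0).card := by
  obtain ⟨g0, hg0⟩ := hs κ
  refine Finset.card_nbij' (fun g => g - g0) (fun g => g + g0) ?_ ?_ ?_ ?_
  · intro g hg
    simp only [coe_filter, mem_univ, true_and, Set.mem_ofPred_eq] at hg ⊢
    rw [map_sub, hg, hg0, sub_self]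
  · intro g hg
    simp only [coe_filter, mem_univ, true_and, Set.mem_ofPred_eq] at hg ⊢
    rw [map_add, hg, hg0, zero_add]
  · intro g _; simp
  · intro g _; simp

theorem card_ker (π : G →+ Q) (hs : Function.Surjective π) :
    Fintype.card G = Fintype.card Q * (univ.filter fun g : G => π g = 0).card := by
  have h := Finset.card_eq_sum_card_fiberwise (f := fun a => π a) (s := (univ : Finset G))
    (t := (univ : Finset Q)) (fun a _ => by simp)
  rw [Finset.sum_congr rfl fun κ _ => card_fib π hs κ, Finset.sum_const, smul_eq_mul,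
    Finset.card_univ, Finset.card_univ] at h
  exact h

theorem sum_mm_sq (A : Finset G) (π : G →+ Q) :
    ∑ κ, mm A π κ ^ 2 = A.card + (A.offDiag.filter fun x => π (x.1 - x.2) = 0).card := by
  classical
  have h1 : ∀ κ, mm A π κ ^ 2 =
      ((A ×ˢ A).filter fun x : G × G => π x.1 = κ ∧ π x.2 = κ).card := by
    intro κ
    have : ((A ×ˢ A).filter fun x : G × G => π x.1 = κ ∧ π x.2 = κ) =
        (A.filter fun a => π a = κ) ×ˢ (A.filter fun a => π a = κ) := by
      ext x
      simp only [mem_filter, mem_product]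
      tauto
    rw [this, card_product, mm, sq]
  have h2 : ((A ×ˢ A).filter fun x : G × G => π (x.1 - x.2) = 0).card =
      ∑ κ, ((A ×ˢ A).filter fun x : G × G => π x.1 = κ ∧ π x.2 = κ).card := by
    have h := Finset.card_eq_sum_card_fiberwise (f := fun x : G × G => π x.1)
      (s := (A ×ˢ A).filter fun x : G × G => π (x.1 - x.2) = 0)
      (t := (univ : Finset Q)) (fun a _ => by simp)
    rw [h]
    refine Finset.sum_congr rfl fun κ _ => ?_
    congr 1
    ext x
    simp only [mem_filter, map_sub, sub_eq_zero]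
    constructor
    · rintro ⟨⟨h3, h4⟩, h5⟩
      exact ⟨h3, h5, by rw [← h4]; exact h5⟩
    · rintro ⟨h3, h4, h5⟩
      exact ⟨⟨h3, by rw [h4, h5]⟩, h4⟩
  have h3 : ((A ×ˢ A).filter fun x : G × G => π (x.1 - x.2) = 0) =
      (A.diag) ∪ (A.offDiag.filter fun x => π (x.1 - x.2) = 0) := by
    ext x
    simp only [mem_filter, mem_product, mem_union, mem_diag, mem_offDiag]
    constructor
    · rintro ⟨⟨h4, h5⟩, h6⟩
      by_cases h7 : x.1 = x.2
      · exact Or.inl ⟨h4, h7⟩
      · exact Or.inr ⟨⟨h4, h5, h7⟩, h6⟩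
    · rintro (⟨h4, h5⟩ | ⟨⟨h4, h5, _⟩, h6⟩)
      · exact ⟨⟨h4, h5 ▸ h4⟩, by rw [h5, sub_self, map_zero]⟩
      · exact ⟨⟨h4, h5⟩, h6⟩
  have h4 : Disjoint A.diag (A.offDiag.filter fun x => π (x.1 - x.2) = 0) := by
    rw [Finset.disjoint_left]
    intro x hx hx'
    rw [mem_diag] at hx
    rw [mem_filter, mem_offDiag] at hx'
    exact hx'.1.2.2 hx.2
  rw [Finset.sum_congr rfl fun κ _ => h1 κ, ← h2, h3, card_union_of_disjoint h4, diag_card]

theorem card_offDiag_ker {A : Finset G} (hA : IsSidon A) (π : G →+ Q) :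
    (A.offDiag.filter fun x => π (x.1 - x.2) = 0).card =
      (univ.filter fun g : G => π g = 0 ∧ g ≠ 0 ∧ g ∉ Dm A).card := by
  classical
  refine Finset.card_bij (fun x _ => x.1 - x.2) ?_ ?_ ?_
  · intro x hx
    rw [mem_filter, mem_offDiag] at hx
    simp only [mem_filter, mem_univ, true_and]
    refine ⟨hx.2, fun h => hx.1.2.2 (sub_eq_zero.1 h), fun h => ?_⟩
    exact (mem_Dm.1 h).2 _ hx.1.1 _ hx.1.2.1 rfl
  · intro x hx y hy hxy
    rw [mem_filter, mem_offDiag] at hx hy
    have := hA.diff_unique hx.1.1 hx.1.2.1 hy.1.1 hy.1.2.1 hx.1.2.2 hxy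
    exact Prod.ext this.1 this.2
  · intro g hg
    simp only [mem_filter, mem_univ, true_and] at hg
    obtain ⟨a, ha, b, hb, hab⟩ := exists_diff hg.2.1 hg.2.2
    refine ⟨(a, b), ?_, hab⟩
    rw [mem_filter, mem_offDiag]
    refine ⟨⟨ha, hb, ?_⟩, ?_⟩
    · rintro h
      simp only at h
      exact hg.2.1 (by rw [← hab, h, sub_self])
    · simp only
      rw [hab]; exact hg.1

theorem ker_split {A : Finset G} (π : G →+ Q) :
    (univ.filter fun g : G => π g = 0).card =
      1 + ((univ.filter fun g : G => π g = 0 ∧ g ≠ 0 ∧ g ∉ Dm A).card +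
        (univ.filter fun g : G => π g = 0 ∧ g ∈ Dm A).card) := by
  classical
  have h1 : (univ.filter fun g : G => π g = 0) =
      {0} ∪ ((univ.filter fun g : G => π g = 0 ∧ g ≠ 0 ∧ g ∉ Dm A) ∪
        (univ.filter fun g : G => π g = 0 ∧ g ∈ Dm A)) := by
    ext g
    simp only [mem_filter, mem_univ, true_and, mem_union, mem_singleton]
    constructor
    · intro h
      by_cases h0 : g = 0
      · exact Or.inl h0
      · by_cases hD : g ∈ Dm A
        · exact Or.inr (Or.inr ⟨h, hD⟩)
        · exact Or.inr (Or.inl ⟨h, h0, hD⟩)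
    · rintro (h | h | h)
      · rw [h, map_zero]
      · exact h.1
      · exact h.1
  have h2 : Disjoint (univ.filter fun g : G => π g = 0 ∧ g ≠ 0 ∧ g ∉ Dm A)
      (univ.filter fun g : G => π g = 0 ∧ g ∈ Dm A) := by
    rw [Finset.disjoint_left]
    intro g hg hg'
    simp only [mem_filter, mem_univ, true_and] at hg hg'
    exact hg.2.2 hg'.2
  have h3 : Disjoint ({0} : Finset G)
      ((univ.filter fun g : G => π g = 0 ∧ g ≠ 0 ∧ g ∉ Dm A) ∪
        (univ.filter fun g : G => π g = 0 ∧ g ∈ Dm A)) := by
    rw [Finset.disjoint_singleton_left]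
    simp only [mem_filter, mem_univ, true_and, mem_union, not_or, not_and]
    exact ⟨fun _ h => absurd rfl h, fun _ h => (mem_Dm.1 h).1 rfl⟩
  rw [h1, card_union_of_disjoint h3, card_union_of_disjoint h2, card_singleton]

/-- C4a: pairs (a, b) with a - b in 2G: all of 2G minus 0 minus Dm A is covered. -/
theorem class_sq_ge {A : Finset G} (hA : IsSidon A) (π : G →+ Q) (hs : Function.Surjective π)
    (_hk : ∀ x, π x = 0 ↔ ∃ y, y + y = x) :
    Fintype.card G + Fintype.card Q * A.card ≤
      Fintype.card Q * ∑ κ, mm A π κ ^ 2 + Fintype.card Q * (1 + (Dm A).card) := by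
  classical
  have h1 := sum_mm_sq A π
  have h2 := card_offDiag_ker hA π
  have h3 := ker_split (A := A) π
  have h4 := card_ker π hs
  have h5 : (univ.filter fun g : G => π g = 0 ∧ g ∈ Dm A).card ≤ (Dm A).card :=
    card_le_card fun g hg => (mem_filter.1 hg).2.2
  rw [h4, h1, h2, ← Nat.mul_add, ← Nat.mul_add]
  apply Nat.mul_le_mul_left
  omega

/-- C4b -/
theorem class_sq_le {A : Finset G} (hA : IsSidon A) (π : G →+ Q) (hs : Function.Surjective π)
    (_hk : ∀ x, π x = 0 ↔ ∃ y, y + y = x) :
    Fintype.card Q * ∑ κ, mm A π κ ^ 2 + Fintype.card Q ≤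
      Fintype.card G + Fintype.card Q * A.card := by
  classical
  have h1 := sum_mm_sq A π
  have h2 := card_offDiag_ker hA π
  have h3 := ker_split (A := A) π
  have h4 := card_ker π hs
  have h6 : Fintype.card Q * ∑ κ, mm A π κ ^ 2 + Fintype.card Q =
      Fintype.card Q * (∑ κ, mm A π κ ^ 2 + 1) := by ring
  rw [h6, h4, h1, h2, ← Nat.mul_add]
  apply Nat.mul_le_mul_left
  omega

/-- |Q| = |G[2]| -/
theorem card_Q_eq (π : G →+ Q) (hs : Function.Surjective π)
    (hk : ∀ x, π x = 0 ↔ ∃ y, y + y = x) :
    Fintype.card Q = (univ.filter fun y : G => y + y = 0).card := by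
  classical
  have h1 : Fintype.card G =
      (univ.filter fun y : G => y + y = 0).card * (univ.filter fun g : G => π g = 0).card := by
    have h := Finset.card_eq_sum_card_fiberwise (f := fun y : G => y + y)
      (s := (univ : Finset G)) (t := univ.filter fun g : G => π g = 0) (fun y _ => by
        simp only [coe_filter, mem_univ, true_and, Set.mem_ofPred_eq]
        exact (hk _).2 ⟨y, rfl⟩)
    have h2 : ∀ x ∈ univ.filter (fun g : G => π g = 0),
        (univ.filter fun y : G => y + y = x).card = (univ.filter fun y : G => y + y = 0).card := by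
      intro x hx
      rw [mem_filter] at hx
      obtain ⟨y0, hy0⟩ := (hk x).1 hx.2
      refine Finset.card_nbij' (fun y => y - y0) (fun y => y + y0) ?_ ?_ ?_ ?_
      · intro y hy
        simp only [coe_filter, mem_univ, true_and, Set.mem_ofPred_eq] at hy ⊢
        have : y - y0 + (y - y0) = y + y - (y0 + y0) := by abel
        rw [this, hy, hy0, sub_self]
      · intro y hy
        simp only [coe_filter, mem_univ, true_and, Set.mem_ofPred_eq] at hy ⊢
        have : y + y0 + (y + y0) = y + y + (y0 + y0) := by abel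
        rw [this, hy, hy0, zero_add]
      · intro y _; simp
      · intro y _; simp
    rw [Finset.card_univ] at h
    rw [h, Finset.sum_congr rfl h2, Finset.sum_const, smul_eq_mul, mul_comm]
  have h2 := card_ker π hs
  have h3 : 0 < (univ.filter fun g : G => π g = 0).card :=
    Finset.card_pos.2 ⟨0, by simp⟩
  exact Nat.eq_of_mul_eq_mul_right h3 (h2.symm.trans h1)

/-- C5: |Q| = |G[2]|, the involutions lie in Dm A. -/
theorem card_Q_le {A : Finset G} (hA : IsSidon A) (_hne : A.Nonempty) (π : G →+ Q)
    (hs : Function.Surjective π) (hk : ∀ x, π x = 0 ↔ ∃ y, y + y = x) :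
    Fintype.card Q ≤ (Dm A).card + 1 := by
  classical
  rw [card_Q_eq π hs hk]
  have hsub : (univ.filter fun y : G => y + y = 0) ⊆ insert 0 (Dm A) := by
    intro y hy
    rw [mem_filter] at hy
    rw [mem_insert]
    by_cases h0 : y = 0
    · exact Or.inl h0
    · right
      rw [mem_Dm]
      refine ⟨h0, fun a ha b hb hab => h0 ?_⟩
      have h1 : a - b = b - a := by
        have h2 : a - b + (a - b) = 0 := by rw [hab]; exact hy.2
        have h3 : b - a = -(a - b) := by abel
        rw [h3]
        exact eq_neg_of_add_eq_zero_left h2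
      have h2 : a + a = b + b := by
        have := congrArg (fun x => x + (a + b)) h1
        calc a + a = a - b + (a + b) := by abel
          _ = b - a + (a + b) := this
          _ = b + b := by abel
      have h3 := hA.dbl_inj ha hb h2
      rw [← hab, h3, sub_self]
  exact (card_le_card hsub).trans (card_insert_le _ _)

/-- C6 -/
theorem two_le_card_Q (hG : Even (Fintype.card G)) (π : G →+ Q)
    (hs : Function.Surjective π) (hk : ∀ x, π x = 0 ↔ ∃ y, y + y = x) :
    2 ≤ Fintype.card Q := by
  classical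
  rw [card_Q_eq π hs hk]
  haveI : Fact (Nat.Prime 2) := ⟨Nat.prime_two⟩
  obtain ⟨u, hu⟩ := exists_prime_addOrderOf_dvd_card 2 hG.two_dvd
  have h0 : u ≠ 0 := by
    rintro rfl
    rw [addOrderOf_zero] at hu
    exact absurd hu (by norm_num)
  have h2 : u + u = 0 := by
    have := addOrderOf_nsmul_eq_zero u
    rw [hu, two_nsmul] at this
    exact this
  have hsub : ({0, u} : Finset G) ⊆ univ.filter fun y : G => y + y = 0 := by
    intro y hy
    rw [mem_insert, mem_singleton] at hy
    rw [mem_filter]
    rcases hy with rfl | rfl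
    · exact ⟨mem_univ _, by rw [add_zero]⟩
    · exact ⟨mem_univ _, h2⟩
  have := card_le_card hsub
  rwa [card_pair h0.symm] at this

end classes

end Pool.Agent.Sid13
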